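import Pool.Agent.Helper87.Ray.Final

/-!
# A geodesic ray of a hyperbolic subgroup that does not land

Problem MP_5d327d_al asks for a hyperbolic group `G`, a hyperbolic subgroup `H` of `G` and a
geodesic ray of `H` whose vertices accumulate at more than one point of the Gromov boundary
of `G`.  The theorem below gives such a triple.

The group `G` is a small cancellation group, `C'(1/31)`, with four classes of two generators
`T, Q, K, R` and sixteen relators `x c i * x (c + 1) j * (x c i)⁻¹ = W i j (x (c + 1))`, where
`W i j` are positive words of length 307, and where `c` runs over the four classes, cyclically.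
The subgroup `H` is generated by the classes `T` and `K`, and is free of rank four.
Positive words of each class act by conjugation on positive words of the next class, and the
first letters `t, q, k, r` of the four classes generate a free, isometrically embedded subgroup
`F` of `G`.  With `s 1 = t⁻¹`, with `S n` the product of the `s i` with `i ≤ n` of the parity of
`n`, with `h (n + 1) = (S n)⁻¹ * y * S n` for `y = q` or `r`, and with
`s (n + 1) = h (n + 1) * z⁻¹ * (h (n + 1))⁻¹` for `z = k` or `t`, all `s n` are negative words in
`T` or in `K`, so that the infinite word `s 1 * s 2 * s 3 * ...` is a geodesic ray of `H`; its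
vertices `s 1 * ... * s n` lie in the tree `F`, where those with `n` even and those with `n`
odd converge to two different ends.
-/

open Pool.Agent.Helper87.Ray

namespace Pool.Agent.Results.MP_5d327d_al.NonLandingRay

/-- There are a group `G` with a finite generating set `S` for which it is hyperbolic, a
subgroup `H` of `G` with a finite generating set `T` for which it is hyperbolic, and a geodesic
ray `γ` from `1` in the Cayley graph of `H` with respect to `T`, such that the vertices of `γ`
accumulate at more than one point of the Gromov boundary of `G`. -/
theorem result : ∃ (G : Type) (_ : Group G) (S : Set G) (hS : IsHyperbolic S)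
    (H : Subgroup G) (T : Set H) (γ : ℕ → H),
    S.Finite ∧ Subgroup.closure S = ⊤ ∧
    T.Finite ∧ Subgroup.closure T = ⊤ ∧ IsHyperbolic T ∧
    γ 0 = 1 ∧ IsGeodesicRay T γ ∧
    (accumulationSet S hS fun n => (γ n : G)).Nontrivial :=
  ⟨GG, inferInstance, gens pr, hyp_G, HH, gens jH, ray, Set.finite_range _,
    closure_gens pr_surjective, Set.finite_range _, closure_gens jH_surjective, hyp_H, ray_zero,
    ray_geodesic, acc_nontrivial _⟩

end Pool.Agent.Results.MP_5d327d_al.NonLandingRay
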